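import Mathlib
import Pool.Agent.Helper30.TT.Defs
import Pool.Agent.Helper30.TT.Final

namespace Pool.Agent.Results.MP_f0207f_co.ThreeThirdsPower

open Pool.Agent.Helper30.TT

/-- For every finite simple graph `G` with maximum degree at least `2`, the graph
`G^{3/3} = (G^{1/3})^3` has chromatic number at most `2 Δ(G) + 1`. -/
theorem result {V : Type*} [Fintype V] (G : SimpleGraph V) [DecidableRel G.Adj]
    (hG : 2 ≤ G.maxDegree) :
    (power (subdiv3 G) 3).chromaticNumber ≤ ((2 * G.maxDegree + 1 : ℕ) : ℕ∞) :=
  (_root_.TT.main G G.maxDegree hG (fun v => G.degree_le_maxDegree v)).chromaticNumber_le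

end Pool.Agent.Results.MP_f0207f_co.ThreeThirdsPower
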